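import Mathlib

set_option autoImplicit false

/-!
# The unit bar visibility number of `K₄`

The unit bar visibility number of the complete graph on `n = 4` vertices is `2`, which exceeds
`⌈(n - 1) / 3⌉ = 1`.
-/

namespace Pool.Agent.Results.MP_aa954a_co.CompleteGraphFour

open Set

/-- The bar with left end `b`: the closed horizontal segment of length `1` from `b` to
`b + (1, 0)`. -/
def bar (b : ℝ × ℝ) : Set (ℝ × ℝ) := Icc b.1 (b.1 + 1) ×ˢ {b.2}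

/-- In the family of bars with left ends in `B`, the bars with left ends `b` and `b'` see each
other: for some non-degenerate axis-parallel rectangle the bottom side lies in one of them, the top
side lies in the other, and the rectangle meets no other bar. -/
def Sees (B : Set (ℝ × ℝ)) (b b' : ℝ × ℝ) : Prop :=
  ∃ x₁ x₂ y₁ y₂ : ℝ, x₁ < x₂ ∧ y₁ < y₂ ∧
    ((Icc x₁ x₂ ×ˢ {y₁} ⊆ bar b ∧ Icc x₁ x₂ ×ˢ {y₂} ⊆ bar b') ∨
      (Icc x₁ x₂ ×ˢ {y₁} ⊆ bar b' ∧ Icc x₁ x₂ ×ˢ {y₂} ⊆ bar b)) ∧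
    ∀ c ∈ B, c ≠ b → c ≠ b' → Disjoint (Icc x₁ x₂ ×ˢ Icc y₁ y₂) (bar c)

/-- `β` is a `t`-unit-bar visibility representation of `G` (`β v` is the set of the left ends of the
bars of `v`). -/
structure IsRepresentation {V : Type} (G : SimpleGraph V) (t : ℕ) (β : V → Finset (ℝ × ℝ)) :
    Prop where
  card_le : ∀ v, (β v).card ≤ t
  disjoint : ∀ v w, ∀ b ∈ β v, ∀ c ∈ β w, (v ≠ w ∨ b ≠ c) → Disjoint (bar b) (bar c)
  adj_iff : ∀ v w, v ≠ w → (G.Adj v w ↔ ∃ b ∈ β v, ∃ c ∈ β w, Sees {d | ∃ u, d ∈ β u} b c)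

/-- The unit bar visibility number: the least positive `t` such that `G` has a `t`-unit-bar
visibility representation. -/
noncomputable def ub {V : Type} (G : SimpleGraph V) : ℕ :=
  sInf {t : ℕ | 1 ≤ t ∧ ∃ β, IsRepresentation G t β}

/-! ### `K₄` has no representation with one bar for every vertex -/

/-- the numerical consequences of visibility -/
lemma sees_data {B : Set (ℝ × ℝ)} {b b' : ℝ × ℝ} (h : Sees B b b') :
    ∃ x₁ x₂ : ℝ, x₁ < x₂ ∧ b.1 ≤ x₁ ∧ x₂ ≤ b.1 + 1 ∧ b'.1 ≤ x₁ ∧ x₂ ≤ b'.1 + 1 ∧ b.2 ≠ b'.2 ∧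
      ∀ c ∈ B, c ≠ b → c ≠ b' → ((b.2 < c.2 ∧ c.2 < b'.2) ∨ (b'.2 < c.2 ∧ c.2 < b.2)) →
        (x₂ < c.1 ∨ c.1 + 1 < x₁) := by
  obtain ⟨x₁, x₂, y₁, y₂, hx, hy, hor, hc⟩ := h
  have key : ∀ (y : ℝ) (d : ℝ × ℝ), Icc x₁ x₂ ×ˢ {y} ⊆ bar d →
      d.1 ≤ x₁ ∧ x₂ ≤ d.1 + 1 ∧ y = d.2 := by
    intro y d hd
    have h1 : (x₁, y) ∈ bar d := hd ⟨⟨le_rfl, hx.le⟩, rfl⟩
    have h2 : (x₂, y) ∈ bar d := hd ⟨⟨hx.le, le_rfl⟩, rfl⟩
    exact ⟨h1.1.1, h2.1.2, h1.2⟩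
  have main : ∀ c ∈ B, c ≠ b → c ≠ b' → y₁ < c.2 → c.2 < y₂ → (x₂ < c.1 ∨ c.1 + 1 < x₁) := by
    intro c hcB h1 h2 h3 h4
    by_contra hcon
    push Not at hcon
    obtain ⟨h5, h6⟩ := hcon
    have hd := hc c hcB h1 h2
    have e1 : (max x₁ c.1, c.2) ∈ Icc x₁ x₂ ×ˢ Icc y₁ y₂ :=
      ⟨⟨le_max_left _ _, max_le hx.le h5⟩, h3.le, h4.le⟩
    have e2 : (max x₁ c.1, c.2) ∈ bar c :=
      ⟨⟨le_max_right _ _, max_le h6 (by linarith)⟩, rfl⟩
    exact Set.disjoint_left.1 hd e1 e2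
  rcases hor with ⟨h1, h2⟩ | ⟨h1, h2⟩
  · obtain ⟨a1, a2, a3⟩ := key _ _ h1
    obtain ⟨b1, b2, b3⟩ := key _ _ h2
    refine ⟨x₁, x₂, hx, a1, a2, b1, b2, by rw [← a3, ← b3]; exact hy.ne, ?_⟩
    intro c hcB h3 h4 h5
    rw [← a3, ← b3] at h5
    rcases h5 with ⟨h5, h6⟩ | ⟨h5, h6⟩
    · exact main c hcB h3 h4 h5 h6
    · linarith
  · obtain ⟨a1, a2, a3⟩ := key _ _ h1
    obtain ⟨b1, b2, b3⟩ := key _ _ h2
    refine ⟨x₁, x₂, hx, b1, b2, a1, a2, by rw [← a3, ← b3]; exact hy.ne', ?_⟩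
    intro c hcB h3 h4 h5
    rw [← a3, ← b3] at h5
    rcases h5 with ⟨h5, h6⟩ | ⟨h5, h6⟩
    · linarith
    · exact main c hcB h3 h4 h5 h6

lemma no_one (β : Fin 4 → Finset (ℝ × ℝ)) : ¬ IsRepresentation (⊤ : SimpleGraph (Fin 4)) 1 β := by
  intro h
  have hex : ∀ v : Fin 4, ∃ b, β v = {b} := by
    intro v
    obtain ⟨w, hw⟩ : ∃ w : Fin 4, v ≠ w := by
      obtain ⟨w, hw⟩ := exists_ne v
      exact ⟨w, hw.symm⟩
    obtain ⟨b, hb, -⟩ := (h.adj_iff v w hw).1 (by simpa using hw)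
    refine ⟨b, ?_⟩
    rw [Finset.eq_singleton_iff_unique_mem]
    exact ⟨hb, fun c hc => Finset.card_le_one.1 (h.card_le v) c hc b hb⟩
  choose p hp using hex
  set B : Set (ℝ × ℝ) := {d | ∃ u, d ∈ β u} with hB
  have hmem : ∀ v, p v ∈ B := fun v => ⟨v, by rw [hp v]; exact Finset.mem_singleton_self _⟩
  have hsee : ∀ v w, v ≠ w → Sees B (p v) (p w) := by
    intro v w hvw
    obtain ⟨b, hb, c, hc, hs⟩ := (h.adj_iff v w hvw).1 (by simpa using hvw)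
    rw [hp v, Finset.mem_singleton] at hb
    rw [hp w, Finset.mem_singleton] at hc
    rw [← hb, ← hc]
    exact hs
  have hne2 : ∀ v w, v ≠ w → (p v).2 ≠ (p w).2 := by
    intro v w hvw
    obtain ⟨x₁, x₂, -, -, -, -, -, h2, -⟩ := sees_data (hsee v w hvw)
    exact h2
  have hinj : Function.Injective (fun v => (p v).2) := by
    intro v w hvw
    by_contra hne
    exact hne2 v w hne hvw
  have hmono : StrictMono ((fun v => (p v).2) ∘ Tuple.sort (fun v => (p v).2)) :=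
    (Tuple.monotone_sort _).strictMono_of_injective
      (hinj.comp (Tuple.sort (fun v => (p v).2)).injective)
  set σ := Tuple.sort (fun v => (p v).2) with hσ
  have h01 : (p (σ 0)).2 < (p (σ 1)).2 := hmono (by decide : (0 : Fin 4) < 1)
  have h12 : (p (σ 1)).2 < (p (σ 2)).2 := hmono (by decide : (1 : Fin 4) < 2)
  have h23 : (p (σ 2)).2 < (p (σ 3)).2 := hmono (by decide : (2 : Fin 4) < 3)
  have hσne : ∀ i j : Fin 4, i ≠ j → σ i ≠ σ j := fun i j hij h => hij (σ.injective h)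
  have hpne : ∀ i j : Fin 4, i ≠ j → p (σ i) ≠ p (σ j) := fun i j hij h =>
    hne2 _ _ (hσne i j hij) (congrArg Prod.snd h)
  obtain ⟨a1, a2, a3, a4, a5, a6, a7, -, -⟩ := sees_data (hsee (σ 1) (σ 2) (hσne _ _ (by decide)))
  obtain ⟨b1, b2, b3, b4, b5, b6, b7, -, b8⟩ :=
    sees_data (hsee (σ 1) (σ 3) (hσne _ _ (by decide)))
  obtain ⟨c1, c2, c3, c4, c5, c6, c7, -, c8⟩ :=
    sees_data (hsee (σ 0) (σ 2) (hσne _ _ (by decide)))
  obtain ⟨d1, d2, d3, d4, d5, d6, d7, -, d8⟩ :=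
    sees_data (hsee (σ 0) (σ 3) (hσne _ _ (by decide)))
  have b9 := b8 (p (σ 2)) (hmem _) (hpne _ _ (by decide)) (hpne _ _ (by decide))
    (Or.inl ⟨h12, h23⟩)
  have c9 := c8 (p (σ 1)) (hmem _) (hpne _ _ (by decide)) (hpne _ _ (by decide))
    (Or.inl ⟨h01, h12⟩)
  have d9 := d8 (p (σ 1)) (hmem _) (hpne _ _ (by decide)) (hpne _ _ (by decide))
    (Or.inl ⟨h01, h12.trans h23⟩)
  have d10 := d8 (p (σ 2)) (hmem _) (hpne _ _ (by decide)) (hpne _ _ (by decide))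
    (Or.inl ⟨h01.trans h12, h23⟩)
  rcases b9 with b9 | b9 <;> rcases c9 with c9 | c9 <;> rcases d9 with d9 | d9 <;>
    rcases d10 with d10 | d10 <;> linarith

/-! ### A representation of `K₄` with at most two bars for every vertex -/

/-- the bars -/
noncomputable def rep : Fin 4 → Finset (ℝ × ℝ) :=
  ![{(0, 0), (19 / 2, 1)}, {(1 / 2, 1), (107 / 10, 1)}, {(1 / 4, 2), (101 / 10, 2)}, {(10, 0)}]

lemma bar_disjoint {b c : ℝ × ℝ} (h : b.2 ≠ c.2 ∨ b.1 + 1 < c.1 ∨ c.1 + 1 < b.1) :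
    Disjoint (bar b) (bar c) := by
  rw [Set.disjoint_left]
  rintro z ⟨⟨h1, h2⟩, h3⟩ ⟨⟨h4, h5⟩, h6⟩
  rw [Set.mem_singleton_iff] at h3 h6
  rcases h with h | h | h
  · exact h (h3.symm.trans h6)
  · linarith
  · linarith

lemma sees_intro {B : Set (ℝ × ℝ)} {b b' : ℝ × ℝ} (x₁ x₂ : ℝ) (hx : x₁ < x₂) (hy : b.2 < b'.2)
    (h1 : b.1 ≤ x₁) (h2 : x₂ ≤ b.1 + 1) (h3 : b'.1 ≤ x₁) (h4 : x₂ ≤ b'.1 + 1)
    (h : ∀ c ∈ B, c ≠ b → c ≠ b' → c.2 < b.2 ∨ b'.2 < c.2 ∨ x₂ < c.1 ∨ c.1 + 1 < x₁) :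
    Sees B b b' := by
  refine ⟨x₁, x₂, b.2, b'.2, hx, hy, Or.inl ⟨?_, ?_⟩, ?_⟩
  · rintro z ⟨⟨h5, h6⟩, h7⟩
    exact ⟨⟨h1.trans h5, h6.trans h2⟩, h7⟩
  · rintro z ⟨⟨h5, h6⟩, h7⟩
    exact ⟨⟨h3.trans h5, h6.trans h4⟩, h7⟩
  · intro c hc hcb hcb'
    rw [Set.disjoint_left]
    rintro z ⟨⟨h5, h6⟩, h7, h8⟩ ⟨⟨h9, h10⟩, h11⟩
    rw [Set.mem_singleton_iff] at h11
    rcases h c hc hcb hcb' with h | h | h | h <;> linarith

lemma Sees.symm {B : Set (ℝ × ℝ)} {b b' : ℝ × ℝ} (h : Sees B b b') : Sees B b' b := by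
  obtain ⟨x₁, x₂, y₁, y₂, hx, hy, hor, hc⟩ := h
  exact ⟨x₁, x₂, y₁, y₂, hx, hy, hor.symm, fun c h1 h2 h3 => hc c h1 h3 h2⟩

lemma rep_isRepresentation : IsRepresentation (⊤ : SimpleGraph (Fin 4)) 2 rep := by
  have hB : ∀ c ∈ {d | ∃ u, d ∈ rep u}, c = (0, 0) ∨ c = (19 / 2, 1) ∨ c = (1 / 2, 1) ∨
      c = (107 / 10, 1) ∨ c = (1 / 4, 2) ∨ c = (101 / 10, 2) ∨ c = (10, 0) := by
    rintro c ⟨u, hu⟩
    fin_cases u
    · have hu' : c ∈ ({(0, 0), (19 / 2, 1)} : Finset (ℝ × ℝ)) := hu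
      simp only [Finset.mem_insert, Finset.mem_singleton] at hu'
      tauto
    · have hu' : c ∈ ({(1 / 2, 1), (107 / 10, 1)} : Finset (ℝ × ℝ)) := hu
      simp only [Finset.mem_insert, Finset.mem_singleton] at hu'
      tauto
    · have hu' : c ∈ ({(1 / 4, 2), (101 / 10, 2)} : Finset (ℝ × ℝ)) := hu
      simp only [Finset.mem_insert, Finset.mem_singleton] at hu'
      tauto
    · have hu' : c ∈ ({(10, 0)} : Finset (ℝ × ℝ)) := hu
      simp only [Finset.mem_singleton] at hu'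
      tauto
  have m0 : ((0 : ℝ), (0 : ℝ)) ∈ rep 0 := by simp [rep]
  have m0' : ((19 / 2 : ℝ), (1 : ℝ)) ∈ rep 0 := by simp [rep]
  have m1 : ((1 / 2 : ℝ), (1 : ℝ)) ∈ rep 1 := by simp [rep]
  have m1' : ((107 / 10 : ℝ), (1 : ℝ)) ∈ rep 1 := by simp [rep]
  have m2 : ((1 / 4 : ℝ), (2 : ℝ)) ∈ rep 2 := by simp [rep]
  have m2' : ((101 / 10 : ℝ), (2 : ℝ)) ∈ rep 2 := by simp [rep]
  have m3 : ((10 : ℝ), (0 : ℝ)) ∈ rep 3 := by simp [rep]
  have s01 : Sees {d | ∃ u, d ∈ rep u} (0, 0) (1 / 2, 1) := by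
    refine sees_intro (3 / 5) (4 / 5) (by norm_num) (by norm_num) (by norm_num) (by norm_num)
      (by norm_num) (by norm_num) ?_
    intro c hc h1 h2
    rcases hB c hc with rfl | rfl | rfl | rfl | rfl | rfl | rfl <;> norm_num at *
  have s12 : Sees {d | ∃ u, d ∈ rep u} (1 / 2, 1) (1 / 4, 2) := by
    refine sees_intro (3 / 5) (4 / 5) (by norm_num) (by norm_num) (by norm_num) (by norm_num)
      (by norm_num) (by norm_num) ?_
    intro c hc h1 h2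
    rcases hB c hc with rfl | rfl | rfl | rfl | rfl | rfl | rfl <;> norm_num at *
  have s02 : Sees {d | ∃ u, d ∈ rep u} (0, 0) (1 / 4, 2) := by
    refine sees_intro (3 / 10) (2 / 5) (by norm_num) (by norm_num) (by norm_num) (by norm_num)
      (by norm_num) (by norm_num) ?_
    intro c hc h1 h2
    rcases hB c hc with rfl | rfl | rfl | rfl | rfl | rfl | rfl <;> norm_num at *
  have s30 : Sees {d | ∃ u, d ∈ rep u} (10, 0) (19 / 2, 1) := by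
    refine sees_intro (51 / 5) (52 / 5) (by norm_num) (by norm_num) (by norm_num) (by norm_num)
      (by norm_num) (by norm_num) ?_
    intro c hc h1 h2
    rcases hB c hc with rfl | rfl | rfl | rfl | rfl | rfl | rfl <;> norm_num at *
  have s31 : Sees {d | ∃ u, d ∈ rep u} (10, 0) (107 / 10, 1) := by
    refine sees_intro (54 / 5) (109 / 10) (by norm_num) (by norm_num) (by norm_num) (by norm_num)
      (by norm_num) (by norm_num) ?_
    intro c hc h1 h2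
    rcases hB c hc with rfl | rfl | rfl | rfl | rfl | rfl | rfl <;> norm_num at *
  have s32 : Sees {d | ∃ u, d ∈ rep u} (10, 0) (101 / 10, 2) := by
    refine sees_intro (211 / 20) (213 / 20) (by norm_num) (by norm_num) (by norm_num) (by norm_num)
      (by norm_num) (by norm_num) ?_
    intro c hc h1 h2
    rcases hB c hc with rfl | rfl | rfl | rfl | rfl | rfl | rfl <;> norm_num at *
  refine ⟨?_, ?_, ?_⟩
  · intro v
    fin_cases v
    · exact Finset.card_le_two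
    · exact Finset.card_le_two
    · exact Finset.card_le_two
    · simp [rep]
  · intro v w b hb c hc hne
    apply bar_disjoint
    fin_cases v <;> fin_cases w <;> simp [rep] at hb hc <;>
      (try rcases hb with rfl | rfl) <;> (try rcases hc with rfl | rfl) <;> (try subst hb) <;>
      (try subst hc) <;> norm_num at *
  · intro v w hvw
    refine ⟨fun _ => ?_, fun _ => by simpa using hvw⟩
    fin_cases v <;> fin_cases w <;> first
      | exact absurd rfl hvw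
      | skip
    · exact ⟨_, m0, _, m1, s01⟩
    · exact ⟨_, m0, _, m2, s02⟩
    · exact ⟨_, m0', _, m3, s30.symm⟩
    · exact ⟨_, m1, _, m0, s01.symm⟩
    · exact ⟨_, m1, _, m2, s12⟩
    · exact ⟨_, m1', _, m3, s31.symm⟩
    · exact ⟨_, m2, _, m0, s02.symm⟩
    · exact ⟨_, m2, _, m1, s12.symm⟩
    · exact ⟨_, m2', _, m3, s32.symm⟩
    · exact ⟨_, m3, _, m0', s30⟩
    · exact ⟨_, m3, _, m1', s31⟩
    · exact ⟨_, m3, _, m2', s32⟩

lemma ub_four : ub (⊤ : SimpleGraph (Fin 4)) = 2 := by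
  have h2 : 2 ∈ {t : ℕ | 1 ≤ t ∧ ∃ β, IsRepresentation (⊤ : SimpleGraph (Fin 4)) t β} :=
    ⟨by norm_num, rep, rep_isRepresentation⟩
  have hle : ub (⊤ : SimpleGraph (Fin 4)) ≤ 2 := Nat.sInf_le h2
  refine le_antisymm hle ?_
  have h3 : ub (⊤ : SimpleGraph (Fin 4)) ∈
      {t : ℕ | 1 ≤ t ∧ ∃ β, IsRepresentation (⊤ : SimpleGraph (Fin 4)) t β} := Nat.sInf_mem ⟨2, h2⟩
  obtain ⟨h4, β, hβ⟩ := h3
  by_contra hcon
  have h5 : ub (⊤ : SimpleGraph (Fin 4)) = 1 := by omega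
  rw [h5] at hβ
  exact no_one β hβ

/-- There is an `n`-vertex graph `G` (the complete graph on `n = 4` vertices, with `ub G = 2`)
whose unit bar visibility number exceeds `⌈(n - 1) / 3⌉`. -/
theorem result : ∃ (n : ℕ) (G : SimpleGraph (Fin n)), 4 ≤ n ∧ ⌈((n : ℚ) - 1) / 3⌉ < (ub G : ℤ) :=
  ⟨4, ⊤, le_rfl, by rw [ub_four]; norm_num⟩

end Pool.Agent.Results.MP_aa954a_co.CompleteGraphFour
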